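import Mathlib

/-!
# Vertex-isoperimetric problems in `ℤ ^ d` without a nested sequence of optimal sets
-/

open Finset Pointwise

namespace Pool.Agent.Results.MP_852f00_co.UnequalBoxes

/-- The vertex boundary of `S` in the Cayley graph of `ℤ ^ d` with respect to `U`: the number of
points outside `S` of the form `x + u` with `x ∈ S` and `u ∈ U`. -/
def bdry {d : ℕ} (U S : Finset (Fin d → ℤ)) : ℕ := ((S + U) \ S).card

/-- `S` has the smallest vertex boundary among all finite sets with the same number of points. -/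
def Optimal {d : ℕ} (U S : Finset (Fin d → ℤ)) : Prop :=
  ∀ T : Finset (Fin d → ℤ), T.card = S.card → bdry U S ≤ bdry U T

/-- `U` consists of non-zero vectors and generates `ℤ ^ d`. -/
structure Admissible {d : ℕ} (U : Finset (Fin d → ℤ)) : Prop where
  zero : (0 : Fin d → ℤ) ∉ U
  gen : AddSubgroup.closure (U : Set (Fin d → ℤ)) = ⊤

/-- The points of `A` at which the functional `φ` is largest on `A`. -/
noncomputable def face {d : ℕ} (φ : (Fin d → ℤ) →+ ℤ) (A : Finset (Fin d → ℤ)) :
    Finset (Fin d → ℤ) :=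
  A.filter (fun a => ∀ b ∈ A, φ b ≤ φ a)

/-- The box `∏ [-p i, q i]`. -/
noncomputable def box {d : ℕ} (p q : Fin d → ℕ) : Finset (Fin d → ℤ) :=
  Fintype.piFinset (fun i => Finset.Icc (-(p i : ℤ)) (q i : ℤ))

section

variable {d : ℕ}

theorem bdry_add (U S : Finset (Fin d → ℤ)) : bdry U S + S.card = (S + insert 0 U).card := by
  unfold bdry
  rw [card_sdiff_add_card, insert_eq, add_union, add_comm S {0}, singleton_add]
  congr 1
  rw [union_comm]
  simp

theorem Optimal.le {U S T : Finset (Fin d → ℤ)} (h : Optimal U S) (hT : T.card = S.card) :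
    (S + insert 0 U).card ≤ (T + insert 0 U).card := by
  rw [← bdry_add, ← bdry_add, hT]
  exact Nat.add_le_add_right (h T hT) _

/-- A cheap extension. -/
theorem cheap {F A : Finset (Fin d → ℤ)} (hF : F.Nonempty) {v : Fin d → ℤ} (hv : v ≠ 0) :
    ∃ x, x ∉ F ∧ (insert x F + A).card ≤ (F + A).card + ((v +ᵥ A) \ A).card := by
  obtain ⟨i, hi⟩ : ∃ i, v i ≠ 0 := by
    by_contra hcon
    push Not at hcon
    exact hv (funext hcon)
  obtain ⟨s, hs, hmax⟩ := exists_max_image F (fun x => x i * v i) hF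
  refine ⟨s + v, ?_, ?_⟩
  · intro h
    have h1 := hmax _ h
    have h2 : 0 < v i * v i := mul_self_pos.2 hi
    simp only [Pi.add_apply] at h1
    nlinarith
  · rw [insert_eq, union_add, singleton_add, union_comm]
    have h1 : (F + A ∪ ((s + v) +ᵥ A)) ⊆ (F + A) ∪ (s +ᵥ ((v +ᵥ A) \ A)) := by
      intro y hy
      rw [mem_union] at hy ⊢
      rcases hy with hy | hy
      · exact Or.inl hy
      · by_cases h : y ∈ F + A
        · exact Or.inl h
        · right
          rw [vadd_finset_sdiff, mem_sdiff]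
          refine ⟨?_, fun h2 => h ?_⟩
          · rw [add_vadd] at hy
            exact hy
          · obtain ⟨a, ha, rfl⟩ := mem_vadd_finset.1 h2
            exact add_mem_add hs ha
    refine (card_le_card h1).trans ((card_union_le _ _).trans ?_)
    rw [card_vadd_finset]

/-- An expensive extension. -/
theorem costly {F A : Finset (Fin d → ℤ)} (φ : (Fin d → ℤ) →+ ℤ) {z : Fin d → ℤ}
    (hz : ∀ y ∈ F, φ y < φ z) :
    (F + A).card + (face φ A).card ≤ (insert z F + A).card := by
  have hd : Disjoint (F + A) (z +ᵥ face φ A) := by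
    rw [disjoint_left]
    intro x hx hx2
    obtain ⟨y, hy, b, hb, rfl⟩ := mem_add.1 hx
    obtain ⟨a, ha, hab⟩ := mem_vadd_finset.1 hx2
    have h1 := hz y hy
    have h2 := (mem_filter.1 ha).2 b hb
    have h3 : φ (z + a) = φ (y + b) := by
      rw [← hab]
      rfl
    rw [map_add, map_add] at h3
    linarith
  rw [← card_vadd_finset z (face φ A), ← card_union_of_disjoint hd]
  refine card_le_card ?_
  rw [insert_eq, union_add, singleton_add]
  refine union_subset subset_union_right ?_
  refine Subset.trans ?_ subset_union_left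
  exact vadd_finset_subset_vadd_finset (filter_subset _ _)

/-- A nested sequence of optimal sets does not grow in the direction of a big face. -/
theorem frozen {U : Finset (Fin d → ℤ)} {φ : (Fin d → ℤ) →+ ℤ} {v : Fin d → ℤ} (hv : v ≠ 0)
    (hface : ((v +ᵥ insert 0 U) \ insert 0 U).card < (face φ (insert 0 U)).card)
    {F : ℕ → Finset (Fin d → ℤ)} (hcard : ∀ n, (F n).card = n) (hnest : ∀ n, F n ⊆ F (n + 1))
    {N : ℕ} (hN : 1 ≤ N) (hopt : ∀ n ≥ N, Optimal U (F n)) :
    ∃ M : ℤ, ∀ n ≥ N, ∀ y ∈ F n, φ y ≤ M := by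
  have hne : (F N).Nonempty := by
    rw [← card_pos, hcard]
    omega
  obtain ⟨s, hs, hmax⟩ := exists_max_image (F N) (fun y => φ y) hne
  refine ⟨φ s, fun n hn => ?_⟩
  induction n, hn using Nat.le_induction with
  | base => exact hmax
  | succ n hn ih =>
    obtain ⟨z, hz, hins⟩ := exists_eq_insert_iff.2 ⟨hnest n, by rw [hcard, hcard]⟩
    intro y hy
    rw [← hins, mem_insert] at hy
    rcases hy with rfl | hy
    · by_contra hcon
      push Not at hcon
      have hbig := costly (A := insert 0 U) φ (F := F n) (z := y)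
        (fun w hw => lt_of_le_of_lt (ih w hw) hcon)
      have hFn : (F n).Nonempty := by
        rw [← card_pos, hcard]
        omega
      obtain ⟨x, hx, hxle⟩ := cheap (A := insert 0 U) hFn hv
      have hle := (hopt (n + 1) (by omega)).le (T := insert x (F n))
        (by rw [card_insert_of_notMem hx, hcard, hcard])
      rw [← hins] at hle
      omega
    · exact ih y hy

/-- Sets in a slab have a large boundary. -/
theorem slab {U S : Finset (Fin d → ℤ)} {φ : (Fin d → ℤ) →+ ℤ} {u : Fin d → ℤ} (hu : u ∈ U)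
    (hφ : φ u ≠ 0) {m M : ℤ} (hm : ∀ y ∈ S, m ≤ φ y) (hM : ∀ y ∈ S, φ y ≤ M) :
    S.card ≤ ((M - m).toNat + 1) * bdry U S := by
  classical
  obtain ⟨L, hL⟩ : ∃ L, L = (M - m).toNat + 1 := ⟨_, rfl⟩
  rw [← hL]
  have hsub : S ⊆ (Icc 1 L).biUnion (fun k : ℕ => ((S + U) \ S).image (fun y => y - k • u)) := by
    intro s hs
    have hex : ∃ k : ℕ, s + k • u ∉ S := by
      refine ⟨L, fun h => ?_⟩
      have h1 := hm _ h
      have h2 := hM _ h
      have h3 := hm _ hs
      have h4 := hM _ hs
      rw [map_add, map_nsmul, nsmul_eq_mul] at h1 h2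
      have h5 : M - m < (L : ℤ) := by
        rw [hL]
        push_cast
        have := Int.self_le_toNat (M - m)
        linarith
      rcases lt_or_gt_of_ne hφ with h6 | h6
      · have h7 : φ u ≤ -1 := by linarith
        have h8 : (0 : ℤ) ≤ L := Int.natCast_nonneg _
        nlinarith
      · have h7 : 1 ≤ φ u := by linarith
        have h8 : (0 : ℤ) ≤ L := Int.natCast_nonneg _
        nlinarith
    have hk1 : Nat.find hex ≠ 0 := by
      intro h
      have := Nat.find_spec hex
      rw [h, zero_nsmul, add_zero] at this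
      exact this hs
    have hkL : Nat.find hex ≤ L := by
      by_contra hcon
      push Not at hcon
      have h := Nat.find_min hex hcon
      push Not at h
      have h1 := hm _ h
      have h2 := hM _ h
      have h3 := hm _ hs
      have h4 := hM _ hs
      rw [map_add, map_nsmul, nsmul_eq_mul] at h1 h2
      have h5 : M - m < (L : ℤ) := by
        rw [hL]
        push_cast
        have := Int.self_le_toNat (M - m)
        linarith
      rcases lt_or_gt_of_ne hφ with h6 | h6
      · have h7 : φ u ≤ -1 := by linarith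
        have h8 : (0 : ℤ) ≤ L := Int.natCast_nonneg _
        nlinarith
      · have h7 : 1 ≤ φ u := by linarith
        have h8 : (0 : ℤ) ≤ L := Int.natCast_nonneg _
        nlinarith
    obtain ⟨k, hk⟩ : ∃ k, Nat.find hex = k + 1 := Nat.exists_eq_succ_of_ne_zero hk1
    rw [mem_biUnion]
    refine ⟨Nat.find hex, mem_Icc.2 ⟨by omega, hkL⟩, mem_image.2 ⟨s + Nat.find hex • u, ?_, ?_⟩⟩
    · rw [mem_sdiff]
      refine ⟨?_, Nat.find_spec hex⟩
      have h1 := Nat.find_min hex (m := k) (by omega)
      push Not at h1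
      rw [hk, succ_nsmul, ← add_assoc]
      exact add_mem_add h1 hu
    · abel
  calc S.card ≤ _ := card_le_card hsub
    _ ≤ ∑ k ∈ Icc 1 L, (((S + U) \ S).image (fun y => y - k • u)).card := card_biUnion_le
    _ ≤ ∑ k ∈ Icc 1 L, bdry U S := sum_le_sum fun k _ => card_image_le
    _ = L * bdry U S := by rw [sum_const, Nat.card_Icc, smul_eq_mul]; simp

/-- Cubes. -/
theorem cube (U : Finset (Fin d → ℤ)) : ∃ R : ℕ, ∀ k : ℕ,
    ∃ T : Finset (Fin d → ℤ), T.card = k ^ d ∧ bdry U T + k ^ d ≤ (k + 2 * R) ^ d := by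
  classical
  obtain ⟨R, hR⟩ : ∃ R : ℕ, ∀ a ∈ insert 0 U, ∀ i, |a i| ≤ (R : ℤ) := by
    refine ⟨∑ a ∈ insert 0 U, ∑ i, (a i).natAbs, fun a ha i => ?_⟩
    have h1 : (a i).natAbs ≤ ∑ i, (a i).natAbs :=
      single_le_sum (f := fun i => (a i).natAbs) (fun _ _ => Nat.zero_le _) (mem_univ i)
    have h2 : ∑ i, (a i).natAbs ≤ ∑ a ∈ insert 0 U, ∑ i, (a i).natAbs :=
      single_le_sum (f := fun a : Fin d → ℤ => ∑ i, (a i).natAbs) (fun _ _ => Nat.zero_le _) ha
    have h3 : (a i).natAbs ≤ ∑ a ∈ insert 0 U, ∑ i, (a i).natAbs := h1.trans h2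
    rw [Int.abs_eq_natAbs]
    exact_mod_cast h3
  refine ⟨R, fun k => ⟨Fintype.piFinset (fun _ => Ico (0 : ℤ) k), ?_, ?_⟩⟩
  · rw [Fintype.card_piFinset]
    simp
  · have hT : (Fintype.piFinset (fun _ : Fin d => Ico (0 : ℤ) k)).card = k ^ d := by
      rw [Fintype.card_piFinset]
      simp
    have h1 := bdry_add U (Fintype.piFinset (fun _ : Fin d => Ico (0 : ℤ) k))
    rw [hT] at h1
    rw [h1]
    have h2 : Fintype.piFinset (fun _ : Fin d => Ico (0 : ℤ) k) + insert 0 U
        ⊆ Fintype.piFinset (fun _ : Fin d => Ico (-(R : ℤ)) (k + R)) := by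
      intro x hx
      obtain ⟨y, hy, a, ha, rfl⟩ := mem_add.1 hx
      rw [Fintype.mem_piFinset] at hy ⊢
      intro i
      have h3 := mem_Ico.1 (hy i)
      have h4 := abs_le.1 (hR a ha i)
      rw [mem_Ico, Pi.add_apply]
      constructor
      · linarith [h3.1, h4.1]
      · linarith [h3.2, h4.2]
    refine (card_le_card h2).trans (le_of_eq ?_)
    rw [Fintype.card_piFinset, prod_const, Int.card_Ico, card_univ, Fintype.card_fin]
    congr 1
    omega

/-- The general criterion. -/
theorem criterion {U : Finset (Fin d → ℤ)} (hU : Admissible U) {φ : (Fin d → ℤ) →+ ℤ}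
    {v : Fin d → ℤ} (hφ : φ ≠ 0) (hv : v ≠ 0)
    (h1 : ((v +ᵥ insert 0 U) \ insert 0 U).card < (face φ (insert 0 U)).card)
    (h2 : ((v +ᵥ insert 0 U) \ insert 0 U).card < (face (-φ) (insert 0 U)).card)
    {F : ℕ → Finset (Fin d → ℤ)} (hcard : ∀ n, (F n).card = n) (hnest : ∀ n, F n ⊆ F (n + 1))
    (N : ℕ) : ∃ n ≥ N, ¬ Optimal U (F n) := by
  by_contra hcon
  push Not at hcon
  have hopt : ∀ n ≥ N + 1, Optimal U (F n) := fun n hn => hcon n (by omega)
  obtain ⟨M, hM⟩ := frozen hv h1 hcard hnest (Nat.le_add_left 1 N) hopt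
  obtain ⟨m, hm⟩ := frozen hv h2 hcard hnest (Nat.le_add_left 1 N) hopt
  -- an element of `U` on which `φ` does not vanish
  obtain ⟨u, hu, hφu⟩ : ∃ u ∈ U, φ u ≠ 0 := by
    by_contra hno
    push Not at hno
    apply hφ
    have : (⊤ : AddSubgroup (Fin d → ℤ)) ≤ φ.ker := by
      rw [← hU.gen, AddSubgroup.closure_le]
      intro u hu
      exact hno u hu
    exact AddMonoidHom.ext fun x => this (AddSubgroup.mem_top x)
  have hd : 1 ≤ d := by
    rcases Nat.eq_zero_or_pos d with h | h
    · subst h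
      exact absurd (Subsingleton.elim v 0) hv
    · exact h
  obtain ⟨L, hL⟩ : ∃ L, L = (M - -m).toNat + 1 := ⟨_, rfl⟩
  have hslab : ∀ n ≥ N + 1, n ≤ L * bdry U (F n) := by
    intro n hn
    have := slab (S := F n) hu hφu (m := -m) (M := M)
      (fun y hy => by
        have := hm n hn y hy
        rw [AddMonoidHom.neg_apply] at this
        linarith) (hM n hn)
    rw [hcard, ← hL] at this
    exact this
  obtain ⟨R, hR⟩ := cube U
  obtain ⟨k, hk⟩ : ∃ k, k = (1 + L) * (2 * R * d) + N + 1 := ⟨_, rfl⟩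
  have hkN : N + 1 ≤ k ^ d := by
    calc N + 1 ≤ k := by rw [hk]; omega
      _ = k ^ 1 := (pow_one k).symm
      _ ≤ k ^ d := Nat.pow_le_pow_right (by omega) hd
  obtain ⟨T, hT, hTb⟩ := hR k
  have h3 := hslab (k ^ d) hkN
  have h4 := hopt (k ^ d) hkN T (by rw [hT, hcard])
  -- the numerical contradiction
  have h5 : (k ^ d) * (1 + L) ≤ L * (k + 2 * R) ^ d := by
    nlinarith
  have hk0 : (0 : ℝ) < (k : ℝ) + 2 * R := by
    have : (1 : ℝ) ≤ k := by
      have : 1 ≤ k := by omega
      exact_mod_cast this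
    positivity
  have h6 : ((k : ℝ) ^ d) * (1 + L) ≤ L * ((k : ℝ) + 2 * R) ^ d := by exact_mod_cast h5
  obtain ⟨y, hy⟩ : ∃ y : ℝ, y = 2 * R / ((k : ℝ) + 2 * R) := ⟨_, rfl⟩
  have hy0 : 0 ≤ y := by rw [hy]; positivity
  have hy1 : y ≤ 1 := by
    rw [hy, div_le_one hk0]
    have : (0 : ℝ) ≤ k := Nat.cast_nonneg _
    linarith
  have hky : (k : ℝ) = ((k : ℝ) + 2 * R) * (1 + -y) := by
    rw [hy]
    field_simp
    ring
  have hbern := one_add_mul_le_pow (a := -y) (by linarith) d
  have hpow : (k : ℝ) ^ d = ((k : ℝ) + 2 * R) ^ d * (1 + -y) ^ d := by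
    rw [← mul_pow, ← hky]
  have hpos : 0 < ((k : ℝ) + 2 * R) ^ d := by positivity
  rw [hpow] at h6
  have h7 : (1 + -y) ^ d * (1 + L) ≤ L := by
    have : ((k : ℝ) + 2 * R) ^ d * ((1 + -y) ^ d * (1 + L)) ≤ ((k : ℝ) + 2 * R) ^ d * L := by
      linarith
    exact le_of_mul_le_mul_left this hpos
  have h8 : (1 + (d : ℝ) * -y) * (1 + L) ≤ L :=
    le_trans (mul_le_mul_of_nonneg_right hbern (by positivity)) h7
  have h9 : (1 : ℝ) ≤ (1 + L) * (d * y) := by linarith
  have h10 : (1 + (L : ℝ)) * (d * y) * ((k : ℝ) + 2 * R) = (1 + L) * (2 * R * d) := by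
    rw [hy]
    field_simp
  have h11 : ((k : ℝ) + 2 * R) ≤ (1 + L) * (2 * R * d) := by
    rw [← h10]
    nlinarith
  have h12 : (k : ℝ) = (1 + L) * (2 * R * d) + N + 1 := by
    rw [hk]
    push_cast
    ring
  have h13 : (0 : ℝ) ≤ N := Nat.cast_nonneg _
  have h14 : (0 : ℝ) ≤ R := Nat.cast_nonneg _
  linarith

theorem insert_box (p q : Fin d → ℕ) :
    insert 0 ((box p q).erase 0) = box p q := by
  refine insert_erase ?_
  unfold box
  rw [Fintype.mem_piFinset]
  intro i
  rw [mem_Icc]
  constructor <;> simp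

/-- Number of points of a box with one coordinate fixed. -/
theorem card_slice (p q : Fin d → ℕ) (j : Fin d) (c : ℤ) :
    (Fintype.piFinset (fun i => if i = j then {c} else Icc (-(p i : ℤ)) (q i : ℤ))).card
      = ∏ i ∈ univ.erase j, (p i + q i + 1) := by
  rw [Fintype.card_piFinset, ← mul_prod_erase univ _ (mem_univ j), if_pos rfl, card_singleton,
    one_mul]
  refine prod_congr rfl fun i hi => ?_
  rw [if_neg (ne_of_mem_erase hi), Int.card_Icc]
  omega

theorem prod_erase_lt {c : Fin d → ℕ} {i j : Fin d} (hc : ∀ k, 0 < c k) (h : c j < c i) :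
    ∏ k ∈ univ.erase i, c k < ∏ k ∈ univ.erase j, c k := by
  by_contra hcon
  push Not at hcon
  have h1 := mul_prod_erase univ c (mem_univ i)
  have h2 := mul_prod_erase univ c (mem_univ j)
  have h3 : 0 < ∏ k ∈ univ.erase i, c k := prod_pos fun k _ => hc k
  have h4 : c j * ∏ k ∈ univ.erase j, c k ≤ c j * ∏ k ∈ univ.erase i, c k :=
    Nat.mul_le_mul_left _ hcon
  have h5 : c j * ∏ k ∈ univ.erase i, c k < c i * ∏ k ∈ univ.erase i, c k :=
    Nat.mul_lt_mul_of_pos_right h h3
  omega

theorem box_admissible {p q : Fin d → ℕ} (hpq : ∀ i, 1 ≤ p i + q i) :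
    Admissible ((box p q).erase 0) := by
  classical
  refine ⟨notMem_erase _ _, ?_⟩
  rw [eq_top_iff]
  intro x _
  have hsingle : ∀ i, (Pi.single i (1 : ℤ) : Fin d → ℤ)
      ∈ AddSubgroup.closure (((box p q).erase 0 : Finset (Fin d → ℤ)) : Set (Fin d → ℤ)) := by
    intro i
    have hmem : ∀ c : ℤ, c ≠ 0 → -(p i : ℤ) ≤ c → c ≤ q i → (Pi.single i c : Fin d → ℤ)
        ∈ AddSubgroup.closure (((box p q).erase 0 : Finset (Fin d → ℤ)) : Set (Fin d → ℤ)) := by
      intro c hc h1 h2
      refine AddSubgroup.subset_closure ?_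
      rw [mem_coe, mem_erase]
      refine ⟨fun h => hc ?_, ?_⟩
      · have := congrFun h i
        rw [Pi.single_eq_same] at this
        exact this
      · unfold box
        rw [Fintype.mem_piFinset]
        intro k
        rw [mem_Icc]
        by_cases hk : k = i
        · subst hk
          rw [Pi.single_eq_same]
          exact ⟨h1, h2⟩
        · rw [Pi.single_eq_of_ne hk]
          constructor <;> simp
    by_cases hq : 1 ≤ q i
    · exact hmem 1 one_ne_zero (by linarith [Int.natCast_nonneg (p i)]) (by exact_mod_cast hq)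
    · have hp : 1 ≤ p i := by
        have := hpq i
        omega
      have h1 := hmem (-1) (by norm_num) (by
        have : (1 : ℤ) ≤ p i := by exact_mod_cast hp
        linarith) (by linarith [Int.natCast_nonneg (q i)])
      have h2 := AddSubgroup.neg_mem _ h1
      rw [← Pi.single_neg, neg_neg] at h2
      exact h2
  rw [← univ_sum_single x]
  refine AddSubgroup.sum_mem _ fun i _ => ?_
  have h1 := AddSubgroup.zsmul_mem _ (hsingle i) (x i)
  have h2 : x i • (Pi.single i (1 : ℤ) : Fin d → ℤ) = Pi.single i (x i) := by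
    rw [← Pi.single_smul, smul_eq_mul, mul_one]
  rw [h2] at h1
  exact h1

/-- Boxes with two different side lengths. -/
theorem boxes {p q : Fin d → ℕ} (hpq : ∀ i, 1 ≤ p i + q i) (hne : ∃ i j, p i + q i ≠ p j + q j)
    {F : ℕ → Finset (Fin d → ℤ)} (hcard : ∀ n, (F n).card = n) (hnest : ∀ n, F n ⊆ F (n + 1))
    (N : ℕ) : ∃ n ≥ N, ¬ Optimal ((box p q).erase 0) (F n) := by
  classical
  obtain ⟨i, j, hij⟩ : ∃ i j, p j + q j < p i + q i := by
    obtain ⟨i, j, h⟩ := hne
    rcases lt_or_gt_of_ne h with h | h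
    · exact ⟨j, i, h⟩
    · exact ⟨i, j, h⟩
  have hlt : ∏ k ∈ univ.erase i, (p k + q k + 1) < ∏ k ∈ univ.erase j, (p k + q k + 1) :=
    prod_erase_lt (c := fun k => p k + q k + 1) (fun k => by omega) (by omega)
  -- the cheap direction
  have hv : ((Pi.single i (1 : ℤ) : Fin d → ℤ) +ᵥ insert 0 ((box p q).erase 0))
      \ insert 0 ((box p q).erase 0) ⊆
      Fintype.piFinset (fun k => if k = i then {(q i : ℤ) + 1} else
        Icc (-(p k : ℤ)) (q k : ℤ)) := by
    rw [insert_box]
    intro x hx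
    obtain ⟨h1, h2⟩ := mem_sdiff.1 hx
    obtain ⟨a, ha, rfl⟩ := mem_vadd_finset.1 h1
    unfold box at ha h2
    rw [Fintype.mem_piFinset] at ha
    have h3 : ∀ k, k ≠ i → ((Pi.single i (1 : ℤ) : Fin d → ℤ) +ᵥ a) k = a k := by
      intro k hk
      rw [vadd_eq_add, Pi.add_apply, Pi.single_eq_of_ne hk, zero_add]
    have h4 : ((Pi.single i (1 : ℤ) : Fin d → ℤ) +ᵥ a) i = 1 + a i := by
      rw [vadd_eq_add, Pi.add_apply, Pi.single_eq_same]
    rw [Fintype.mem_piFinset]
    intro k
    by_cases hk : k = i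
    · subst hk
      rw [if_pos rfl, mem_singleton, h4]
      by_contra hcon
      apply h2
      rw [Fintype.mem_piFinset]
      intro l
      by_cases hl : l = k
      · subst hl
        rw [h4, mem_Icc]
        have := mem_Icc.1 (ha l)
        constructor
        · linarith [this.1]
        · have h5 := this.2
          omega
      · rw [h3 l hl]
        exact ha l
    · rw [if_neg hk, h3 k hk]
      exact ha k
  have hvc := card_le_card hv
  rw [card_slice] at hvc
  -- the faces
  have hface : ∀ (ε : ℤ), (ε = 1 ∨ ε = -1) →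
      ∏ k ∈ univ.erase j, (p k + q k + 1)
        ≤ (face (ε • (Pi.evalAddMonoidHom (fun _ : Fin d => ℤ) j))
          (insert 0 ((box p q).erase 0))).card := by
    intro ε hε
    rw [insert_box, ← card_slice p q j (if ε = 1 then (q j : ℤ) else -(p j : ℤ))]
    refine card_le_card fun x hx => ?_
    rw [Fintype.mem_piFinset] at hx
    have hxj := hx j
    rw [if_pos rfl, mem_singleton] at hxj
    unfold face
    rw [mem_filter]
    refine ⟨?_, fun b hb => ?_⟩
    · unfold box
      rw [Fintype.mem_piFinset]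
      intro k
      by_cases hk : k = j
      · subst hk
        rw [hxj, mem_Icc]
        split_ifs <;> constructor <;> simp
      · have := hx k
        rw [if_neg hk] at this
        exact this
    · unfold box at hb
      rw [Fintype.mem_piFinset] at hb
      have hbj := mem_Icc.1 (hb j)
      show ε • b j ≤ ε • x j
      rw [hxj]
      rcases hε with rfl | rfl
      · rw [if_pos rfl, one_smul, one_smul]
        exact hbj.2
      · rw [if_neg (by norm_num), neg_smul, neg_smul, one_smul, one_smul]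
        linarith [hbj.1]
  have hf1 := hface 1 (Or.inl rfl)
  have hf2 := hface (-1) (Or.inr rfl)
  rw [one_smul] at hf1
  rw [neg_smul, one_smul] at hf2
  refine criterion (box_admissible hpq) (φ := Pi.evalAddMonoidHom (fun _ : Fin d => ℤ) j)
    (v := Pi.single i 1) ?_ ?_ (by omega) (by omega) hcard hnest N
  · intro h
    have := DFunLike.congr_fun h (Pi.single j (1 : ℤ) : Fin d → ℤ)
    simp at this
  · intro h
    have := congrFun h i
    simp at this

end

end Pool.Agent.Results.MP_852f00_co.UnequalBoxes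

open Pool.Agent.Results.MP_852f00_co.UnequalBoxes in
/-- A negative answer to the question on nested vertex-isoperimetric orderings in every dimension
`d ≥ 2`, for arbitrarily large sizes. -/
theorem Pool.Agent.Results.MP_852f00_co.UnequalBoxes.result :
    -- a general criterion
    (∀ (d : ℕ) (U : Finset (Fin d → ℤ)) (φ : (Fin d → ℤ) →+ ℤ) (v : Fin d → ℤ),
      Admissible U → φ ≠ 0 → v ≠ 0 →
      ((v +ᵥ insert 0 U) \ insert 0 U).card < (face φ (insert 0 U)).card →
      ((v +ᵥ insert 0 U) \ insert 0 U).card < (face (-φ) (insert 0 U)).card →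
      ∀ F : ℕ → Finset (Fin d → ℤ), (∀ n, (F n).card = n) → (∀ n, F n ⊆ F (n + 1)) →
        ∀ N, ∃ n ≥ N, ¬ Optimal U (F n)) ∧
    -- boxes which are not cubes
    (∀ (d : ℕ) (p q : Fin d → ℕ), (∀ i, 1 ≤ p i + q i) → (∃ i j, p i + q i ≠ p j + q j) →
      Admissible ((box p q).erase 0) ∧
      ∀ F : ℕ → Finset (Fin d → ℤ), (∀ n, (F n).card = n) → (∀ n, F n ⊆ F (n + 1)) →
        ∀ N, ∃ n ≥ N, ¬ Optimal ((box p q).erase 0) (F n)) ∧
    -- the negated question, for every `d ≥ 2` and a symmetric `U`, and for all sequences of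
    -- distinct points, in particular for all orderings of `ℤ ^ d`
    (∀ d : ℕ, 2 ≤ d → ∃ U : Finset (Fin d → ℤ), Admissible U ∧ (∀ u ∈ U, -u ∈ U) ∧
      ∀ w : ℕ → Fin d → ℤ, Function.Injective w →
        ∀ N, ∃ n ≥ N, ¬ Optimal U ((Finset.range n).image w)) := by
  refine ⟨?_, ?_, ?_⟩
  · intro d U φ v hU hφ hv h1 h2 F hcard hnest N
    exact criterion hU hφ hv h1 h2 hcard hnest N
  · intro d p q hpq hne
    exact ⟨box_admissible hpq, fun F hcard hnest N => boxes hpq hne hcard hnest N⟩
  · intro d hd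
    have hpq : ∀ i : Fin d, 1 ≤ (if (i : ℕ) = 0 then 2 else 1) + (if (i : ℕ) = 0 then 2 else 1) := by
      intro i
      split_ifs <;> omega
    refine ⟨(box (fun i : Fin d => if (i : ℕ) = 0 then 2 else 1)
      (fun i : Fin d => if (i : ℕ) = 0 then 2 else 1)).erase 0, box_admissible hpq, ?_, ?_⟩
    · intro u hu
      rw [Finset.mem_erase] at hu ⊢
      refine ⟨neg_ne_zero.2 hu.1, ?_⟩
      have h := hu.2
      unfold box at h ⊢
      rw [Fintype.mem_piFinset] at h ⊢
      intro i
      have h1 := Finset.mem_Icc.1 (h i)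
      rw [Finset.mem_Icc, Pi.neg_apply]
      constructor
      · linarith [h1.2]
      · linarith [h1.1]
    · intro w hw N
      refine boxes hpq ⟨⟨0, by omega⟩, ⟨1, by omega⟩, by simp⟩ (fun n => ?_) (fun n => ?_) N
      · rw [Finset.card_image_of_injective _ hw, Finset.card_range]
      · exact Finset.image_subset_image (Finset.range_mono (Nat.le_succ n))
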